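import Pool.Agent.H31.Para

set_option autoImplicit false

open Pool.Agent.H31 Topology

universe u

theorem Pool.Agent.Results.MP_39d387_al.Main.result :
    (∃ (G : Type) (_ : TopologicalSpace G) (_ : AddCommGroup G), ContinuousAdd G ∧ T2Space G ∧
      (∀ 𝒰 : Set (Set G), (∀ U ∈ 𝒰, IsOpen U ∧ U.Nonempty) →
        LocallyFinite (fun U : 𝒰 => U.1) → 𝒰.Finite) ∧ BaireSpace G ∧
      ∃ U : ℕ → Set G, Antitone U ∧ (∀ n, IsOpen (U n) ∧ (U n).Nonempty) ∧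
        ⋂ n, closure (-U n) = ∅) ∧
    ∀ (G : Type u) [TopologicalSpace G] [Group G] [ContinuousMul G] [BaireSpace G],
      (∃ D : Set G, Dense D ∧ ∀ B ⊆ D, B.Infinite → ∃ y, ∀ V ∈ 𝓝 y, (V ∩ B).Infinite) →
      ∀ U : ℕ → Set G, Antitone U → (∀ n, IsOpen (U n) ∧ (U n).Nonempty) →
        (⋂ n, closure (U n)⁻¹).Nonempty :=
  ⟨Para.baire, fun _ _ _ _ _ ⟨_, h1, h2⟩ => Para.pos h1 h2⟩
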